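import Pool.Agent.H2.EA.Stm

/-! Crew EA, part CRA (helper80). -/

set_option autoImplicit false
set_option linter.all false

open Finset Module

namespace H80.EA

theorem t_CRA : H2.EA.S_CRA := by
  intro p _ d J _ _ R M lam hgen x hx
  -- left inverse at `x`
  let Mx : Matrix J (Fin R) (ZMod p) := M.map (MvPolynomial.eval x)
  have hker : LinearMap.ker (Matrix.toLin' Mx) = ⊥ := by
    rw [LinearMap.ker_eq_bot']
    intro y hy
    apply hx y
    intro i
    have := congrFun hy i
    rw [Matrix.toLin'_apply] at this
    exact this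
  obtain ⟨g, hg⟩ := LinearMap.exists_leftInverse_of_injective _ hker
  let B : Matrix (Fin R) J (ZMod p) := LinearMap.toMatrix' g
  have hB : B * Mx = 1 := by
    have h1 : LinearMap.toMatrix' (g ∘ₗ Matrix.toLin' Mx) = B * Mx := by
      rw [LinearMap.toMatrix'_comp, LinearMap.toMatrix'_toLin']
    rw [← h1, hg]
    exact LinearMap.toMatrix'_id
  let Bp : Matrix (Fin R) J (MvPolynomial (Fin d) (ZMod p)) := B.map MvPolynomial.C
  let N : Matrix (Fin R) (Fin R) (MvPolynomial (Fin d) (ZMod p)) := Bp * M
  let W : Matrix J J (MvPolynomial (Fin d) (ZMod p)) := M * N.adjugate * Bp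
  have hWM : W * M = N.det • M := by
    show M * N.adjugate * Bp * M = N.det • M
    rw [Matrix.mul_assoc, Matrix.mul_assoc]
    show M * (N.adjugate * N) = _
    rw [Matrix.adjugate_mul, Matrix.mul_smul, Matrix.mul_one]
  have hpoly : ∀ j, MvPolynomial.C (lam j) * N.det = ∑ i, MvPolynomial.C (lam i) * W j i := by
    intro j
    have h1 := hgen (fun i => algebraMap _ (H2.EA.Fr p d) (N.det * (if i = j then 1 else 0) - W j i))
      (by
        intro c
        rw [← map_zero (algebraMap (MvPolynomial (Fin d) (ZMod p)) (H2.EA.Fr p d))]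
        simp only [← map_mul, ← map_sum]
        congr 1
        have h2 := congrFun (congrFun hWM j) c
        rw [Matrix.mul_apply, Matrix.smul_apply, smul_eq_mul] at h2
        simp only [sub_mul, Finset.sum_sub_distrib, h2]
        rw [sub_eq_zero]
        rw [Finset.sum_eq_single j]
        · rw [if_pos rfl, mul_one]
        · intro b _ hb
          rw [if_neg hb, mul_zero, zero_mul]
        · intro h
          exact absurd (Finset.mem_univ j) h)
    have h3 : ∀ i, algebraMap (ZMod p) (H2.EA.Fr p d) (lam i)
        = algebraMap (MvPolynomial (Fin d) (ZMod p)) (H2.EA.Fr p d) (MvPolynomial.C (lam i)) := by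
      intro i
      rw [IsScalarTower.algebraMap_apply (ZMod p) (MvPolynomial (Fin d) (ZMod p)) (H2.EA.Fr p d)]
      rfl
    simp only [h3, ← map_mul, ← map_sum] at h1
    rw [map_eq_zero_iff _ (IsFractionRing.injective (MvPolynomial (Fin d) (ZMod p))
      (H2.EA.Fr p d))] at h1
    simp only [mul_sub, Finset.sum_sub_distrib] at h1
    rw [sub_eq_zero] at h1
    rw [← h1, Finset.sum_eq_single j]
    · rw [if_pos rfl, mul_one]
    · intro b _ hb
      rw [if_neg hb, mul_zero, mul_zero]
    · intro h
      exact absurd (Finset.mem_univ j) h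
  -- evaluate
  have hNx : N.map (MvPolynomial.eval x) = 1 := by
    show (Bp * M).map (MvPolynomial.eval x) = 1
    rw [Matrix.map_mul]
    have h1 : Bp.map (MvPolynomial.eval x) = B := by
      ext i j
      simp [Bp]
    rw [h1]
    exact hB
  have hdetx : MvPolynomial.eval x N.det = 1 := by
    rw [RingHom.map_det]
    show (N.map (MvPolynomial.eval x)).det = 1
    rw [hNx, Matrix.det_one]
  have hWx : W.map (MvPolynomial.eval x) = Mx * B := by
    show (M * N.adjugate * Bp).map (MvPolynomial.eval x) = Mx * B
    rw [Matrix.map_mul, Matrix.map_mul]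
    have h1 : Bp.map (MvPolynomial.eval x) = B := by
      ext i j
      simp [Bp]
    have h2 : N.adjugate.map (MvPolynomial.eval x) = 1 := by
      have := RingHom.map_adjugate (MvPolynomial.eval x) N
      have h3 : N.adjugate.map (MvPolynomial.eval x)
          = (N.map (MvPolynomial.eval x)).adjugate := this
      rw [h3, hNx, Matrix.adjugate_one]
    rw [h1, h2, Matrix.mul_one]
  have hlam : ∀ j, lam j = ∑ i, lam i * (Mx * B) j i := by
    intro j
    have h1 := congrArg (MvPolynomial.eval x) (hpoly j)
    rw [map_mul, hdetx, mul_one, MvPolynomial.eval_C, map_sum] at h1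
    rw [h1]
    apply Finset.sum_congr rfl
    intro i _
    rw [map_mul, MvPolynomial.eval_C, ← hWx]
    rfl
  intro s hs
  have h4 : ∀ i, ∑ j, s j * (Mx * B) j i = 0 := by
    intro i
    simp only [Matrix.mul_apply, Finset.mul_sum]
    rw [Finset.sum_comm]
    apply Finset.sum_eq_zero
    intro c _
    have h5 := hs c
    simp only [← mul_assoc]
    rw [← Finset.sum_mul]
    have h6 : ∑ j, s j * Mx j c = 0 := h5
    rw [h6, zero_mul]
  calc ∑ j, lam j * s j = ∑ j, (∑ i, lam i * (Mx * B) j i) * s j := by
        apply Finset.sum_congr rfl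
        intro j _
        rw [← hlam j]
    _ = ∑ i, lam i * ∑ j, s j * (Mx * B) j i := by
        simp only [Finset.sum_mul, Finset.mul_sum]
        rw [Finset.sum_comm]
        apply Finset.sum_congr rfl
        intro i _
        apply Finset.sum_congr rfl
        intro j _
        ring
    _ = 0 := by
        apply Finset.sum_eq_zero
        intro i _
        rw [h4 i, mul_zero]

end H80.EA
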