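import Pool.Agent.H2.EA.Stm

/-! Crew EA, part RB (helper80). -/

set_option autoImplicit false
set_option linter.all false

open Finset Module

namespace H80.EA

open H2.EA

/-- finitely many functionals, each non-zero somewhere on `Ker`, have a common non-zero -/
theorem common_ne {F V : Type} [Field F] [Infinite F] [AddCommGroup V] [Module F V] {m : ℕ}
    (Ker : Submodule F V) (L : Fin m → V →ₗ[F] F) (h : ∀ j, ∃ s ∈ Ker, L j s ≠ 0) :
    ∃ s ∈ Ker, ∀ j, L j s ≠ 0 := by
  by_contra hno
  push Not at hno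
  have hU : ⋃ j : Fin m, ((LinearMap.ker ((L j).comp Ker.subtype) : Submodule F Ker) : Set Ker)
      = Set.univ := by
    ext s
    simp only [Set.mem_iUnion, Set.mem_univ, iff_true]
    obtain ⟨j, hj⟩ := hno s.1 s.2
    exact ⟨j, by simpa using hj⟩
  obtain ⟨j, hj⟩ := Subspace.exists_eq_top_of_iUnion_eq_univ hU
  obtain ⟨s, hs, hs2⟩ := h j
  apply hs2
  have : (⟨s, hs⟩ : Ker) ∈ LinearMap.ker ((L j).comp Ker.subtype) := by
    rw [hj]; exact Submodule.mem_top
  simpa using this

theorem infinite_Fr (p : ℕ) [Fact p.Prime] {d : ℕ} (hd : 0 < d) : Infinite (Fr p d) := by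
  haveI : Nonempty (Fin d) := ⟨⟨0, hd⟩⟩
  haveI := MvPolynomial.infinite_of_nonempty (Fin d) (ZMod p)
  exact Infinite.of_injective _ (IsFractionRing.injective (MvPolynomial (Fin d) (ZMod p)) (Fr p d))

/-- the derivation in the direction `v` -/
noncomputable def Dv {p : ℕ} [Fact p.Prime] {A : Type} [AddCommGroup A] [Module (ZMod p) A] {d : ℕ}
    (b : Basis (Fin d) (ZMod p) A) (v : A →ₗ[ZMod p] ZMod p) :
    Derivation (ZMod p) (MvPolynomial (Fin d) (ZMod p)) (MvPolynomial (Fin d) (ZMod p)) :=
  MvPolynomial.mkDerivation (ZMod p) (fun l => MvPolynomial.C (v (b l)))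

theorem Dv_gen {p : ℕ} [Fact p.Prime] {A : Type} [AddCommGroup A] [Module (ZMod p) A] {d : ℕ}
    (b : Basis (Fin d) (ZMod p) A) (v : A →ₗ[ZMod p] ZMod p) (a : A) :
    Dv b v (genP b a) = MvPolynomial.C (v a) := by
  have h : (Dv b v : MvPolynomial (Fin d) (ZMod p) →ₗ[ZMod p] MvPolynomial (Fin d) (ZMod p))
      ∘ₗ genP b = (Algebra.linearMap (ZMod p) (MvPolynomial (Fin d) (ZMod p))) ∘ₗ v := by
    apply b.ext
    intro l
    simp only [LinearMap.comp_apply, genP, Basis.constr_basis]
    exact MvPolynomial.mkDerivation_X (ZMod p) _ l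
  exact congrArg (fun f => f a) h

/-- downward triangular systems -/
theorem triangular {F : Type} [Field F] {m : ℕ} (c : Fin m → Fin m → F) (y : Fin m → F)
    (h0 : ∀ j, ∑ i, y i * c j i = 0) (h1 : ∀ j i, i < j → c j i = 0) (h2 : ∀ j, c j j ≠ 0) :
    y = 0 := by
  have key : ∀ n : ℕ, ∀ j : Fin m, m ≤ j.1 + n → y j = 0 := by
    intro n
    induction n with
    | zero =>
      intro j hj
      have := j.2
      omega
    | succ n ih =>
      intro j hj
      have h3 := h0 j
      rw [Finset.sum_eq_single j] at h3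
      · exact (mul_eq_zero.mp h3).resolve_right (h2 j)
      · intro i _ hij
        rcases lt_or_gt_of_ne hij with h | h
        · rw [h1 j i h, mul_zero]
        · rw [ih i (by have : j.1 < i.1 := h; omega), zero_mul]
      · intro h
        exact absurd (Finset.mem_univ j) h
  funext j
  exact key m j (by omega)

theorem t_RB (hZF : S_ZF) (hZG : S_ZG) (hHOM : S_HOM) : S_RB := by
  intro p _ G A _ _ _ _ D hpG d b K hιK hZne n co hgen
  have hp2 : 2 ≤ p := (Fact.out : p.Prime).two_le
  obtain ⟨zf1, zf2, zf3, zf4, zf5, zf6, zf7⟩ := hZF p G A D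
  have hmono : ∀ i j, i ≤ j → D.Z K i ≤ D.Z K j := fun i j h =>
    monotone_nat_of_le_succ (zf1 K) h
  -- `d` is positive
  have hd : 0 < d := by
    rcases Nat.eq_zero_or_pos d with rfl | h
    · exfalso
      apply hZne
      haveI : Subsingleton A := b.equivFun.toEquiv.subsingleton
      ext a
      simp [Subsingleton.elim a 0]
    · exact h
  haveI := infinite_Fr p hd
  -- the vectors
  have hex : ∀ j : Fin (p - 1), ∃ ψ ∈ D.Z K (j.1 + 2), ∃ k ∈ K, D.N k ψ ∉ D.Z K j.1 := by
    intro j
    by_contra hno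
    push Not at hno
    have hj := j.2
    apply (hZG p G A D hpG K).2 (j.1 + 1)
    · intro htop
      apply hZne
      rw [eq_top_iff, ← htop]
      exact hmono _ _ (by omega)
    · apply le_antisymm (zf1 K _)
      intro ψ hψ
      rw [D.mem_Z_succ]
      intro k hk
      exact hno ψ hψ k hk
  choose ψ hψ k hk hN using hex
  have hv : ∀ j, ∃ v : A →ₗ[ZMod p] ZMod p, v (D.N (k j) (ψ j)) ≠ 0 ∧
      D.Z K j.1 ≤ LinearMap.ker v := fun j => Submodule.exists_le_ker_of_notMem (hN j)
  choose v hv1 hv2 using hv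
  have hvZ : ∀ j, ∀ a ∈ D.Z K j.1, v j a = 0 := fun j a ha => hv2 j ha
  have hψp : ∀ j, ψ j ∈ D.Z K p := by
    intro j
    apply hmono _ _ _ (hψ j)
    have := j.2
    omega
  -- `v_j (lg k ψ_j) = v_j (N k ψ_j)`
  have hlg : ∀ j, v j (D.lg (k j) (ψ j)) ≠ 0 := by
    intro j
    have h1 : v j (D.lg (k j) (ψ j)) = v j (D.N (k j) (ψ j)) := by
      have hpow : ∀ i : ℕ, (D.N (k j) ^ (i + 2)) (ψ j) ∈ D.Z K j.1 := by
        intro i
        induction i with
        | zero =>
          have h2 : D.N (k j) (ψ j) ∈ D.Z K (j.1 + 1) :=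
            (zf4 K (j.1 + 1) (k j) (hk j) (ψ j) (hψ j)).1
          have h3 : D.N (k j) (D.N (k j) (ψ j)) ∈ D.Z K j.1 :=
            (zf4 K j.1 (k j) (hk j) _ h2).1
          rw [zero_add, sq]
          exact h3
        | succ i ih =>
          have h2 := (zf3 K j.1 (k j) _ ih).2.1
          have e : (D.N (k j) ^ (i + 1 + 2)) (ψ j) = D.N (k j) ((D.N (k j) ^ (i + 2)) (ψ j)) := by
            rw [show i + 1 + 2 = (i + 2) + 1 from rfl, pow_succ']
            rfl
          rw [e]
          exact h2
      unfold Dat.lg tl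
      obtain ⟨m, hm⟩ : ∃ m, p - 1 = m + 1 := ⟨p - 2, by omega⟩
      rw [hm, Finset.sum_range_succ', LinearMap.add_apply, map_add]
      have hz : v j ((∑ i ∈ range m, ((-1 : ZMod p) ^ (i + 1) * ((i + 1 + 1 : ℕ) : ZMod p)⁻¹) •
          D.N (k j) ^ (i + 1 + 1)) (ψ j)) = 0 := by
        rw [LinearMap.sum_apply, map_sum]
        apply Finset.sum_eq_zero
        intro i _
        rw [LinearMap.smul_apply, map_smul, hvZ j _ (hpow i), smul_zero]
      rw [hz, zero_add]
      simp
    rw [h1]
    exact hv1 j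
  -- the coordinates of the functionals
  let μ : Fin (p - 1) → Fin n → ZMod p := fun j i => v j (D.lg (co.k i) (ψ j))
  have hμ : ∀ j, μ j ≠ 0 := by
    intro j hzero
    apply hlg j
    have h1 := (hHOM p G A D K n co hιK).1 (ZMod p) (fun x => v j (D.lg x (ψ j)))
      (fun x hx y hy => by
        show v j (D.lg (x * y) (ψ j)) = _
        rw [zf6 K x hx y hy _ (hψp j), map_add])
      (fun a => by
        show v j (D.lg (D.ι a) (ψ j)) = 0
        have h2 : D.N (D.ι a) = 0 := by
          unfold Dat.N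
          rw [D.act_ι, sub_self]
        have h3 : D.lg (D.ι a) = 0 := by
          rw [D.lg_eq, h2, zero_mul]
        rw [h3, LinearMap.zero_apply, map_zero])
      (k j) (hk j)
    rw [h1]
    apply Finset.sum_eq_zero
    intro i _
    have h4 : v j (D.lg (co.k i) (ψ j)) = 0 := congrFun hzero i
    rw [h4, smul_zero]
  -- a common generic kernel vector
  let Ker : Submodule (Fr p d) (Fin n → Fr p d) :=
    { carrier := {s | ∀ a ∈ D.Z K p, ∑ i, s i * genF b (D.lg (co.k i) a) = 0}
      add_mem' := by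
        intro s t hs ht a ha
        simp only [Pi.add_apply, add_mul, Finset.sum_add_distrib]
        rw [hs a ha, ht a ha, add_zero]
      zero_mem' := by
        intro a ha
        simp
      smul_mem' := by
        intro c s hs a ha
        simp only [Pi.smul_apply, smul_eq_mul, mul_assoc, ← Finset.mul_sum]
        rw [hs a ha, mul_zero] }
  let Lf : Fin (p - 1) → (Fin n → Fr p d) →ₗ[Fr p d] Fr p d := fun j =>
    { toFun := fun s => ∑ i, algebraMap (ZMod p) (Fr p d) (μ j i) * s i
      map_add' := by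
        intro s t
        simp only [Pi.add_apply, mul_add, Finset.sum_add_distrib]
      map_smul' := by
        intro c s
        simp only [Pi.smul_apply, smul_eq_mul, RingHom.id_apply, Finset.mul_sum]
        apply Finset.sum_congr rfl
        intro i _
        ring }
  obtain ⟨s, hsK, hsL⟩ := common_ne Ker Lf (by
    intro j
    obtain ⟨s, hs1, hs2⟩ := hgen (μ j) (hμ j)
    exact ⟨s, hs1, hs2⟩)
  obtain ⟨c, hc⟩ := IsLocalization.exist_integer_multiples_of_finite
    (nonZeroDivisors (MvPolynomial (Fin d) (ZMod p))) s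
  choose S hS using hc
  have hinj := IsFractionRing.injective (MvPolynomial (Fin d) (ZMod p)) (Fr p d)
  have hc0 : algebraMap (MvPolynomial (Fin d) (ZMod p)) (Fr p d) c ≠ 0 := by
    rw [Ne, map_eq_zero_iff _ hinj]
    exact nonZeroDivisors.coe_ne_zero c
  have hS' : ∀ i, algebraMap (MvPolynomial (Fin d) (ZMod p)) (Fr p d) (S i)
      = algebraMap (MvPolynomial (Fin d) (ZMod p)) (Fr p d) c * s i := by
    intro i
    rw [hS i, Algebra.smul_def]
  have hP : ∀ a ∈ D.Z K p, ∑ i, S i * genP b (D.lg (co.k i) a) = 0 := by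
    intro a ha
    apply hinj
    rw [map_zero, map_sum]
    have h1 := hsK a ha
    calc ∑ i, algebraMap (MvPolynomial (Fin d) (ZMod p)) (Fr p d) (S i * genP b (D.lg (co.k i) a))
        = algebraMap (MvPolynomial (Fin d) (ZMod p)) (Fr p d) c
          * ∑ i, s i * genF b (D.lg (co.k i) a) := by
          rw [Finset.mul_sum]
          apply Finset.sum_congr rfl
          intro i _
          rw [map_mul, hS' i, genF_apply]
          ring
      _ = 0 := by rw [h1, mul_zero]
  have hL : ∀ j, ∑ i, S i * MvPolynomial.C (μ j i) ≠ 0 := by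
    intro j hzero
    apply hsL j
    have h1 := congrArg (algebraMap (MvPolynomial (Fin d) (ZMod p)) (Fr p d)) hzero
    rw [map_zero, map_sum] at h1
    have h2 : algebraMap (MvPolynomial (Fin d) (ZMod p)) (Fr p d) c * Lf j s = 0 := by
      rw [← h1]
      show _ * ∑ i, algebraMap (ZMod p) (Fr p d) (μ j i) * s i = _
      rw [Finset.mul_sum]
      apply Finset.sum_congr rfl
      intro i _
      rw [map_mul, hS' i,
        IsScalarTower.algebraMap_apply (ZMod p) (MvPolynomial (Fin d) (ZMod p)) (Fr p d)]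
      have : algebraMap (ZMod p) (MvPolynomial (Fin d) (ZMod p)) (μ j i)
          = MvPolynomial.C (μ j i) := rfl
      rw [this]
      ring
    exact (mul_eq_zero.mp h2).resolve_left hc0
  -- differentiate
  have hder : ∀ j, ∀ a ∈ D.Z K p, ∑ l, S l * MvPolynomial.C (v j (D.lg (co.k l) a))
      = - ∑ l, genP b (D.lg (co.k l) a) * Dv b (v j) (S l) := by
    intro j a ha
    have h1 := congrArg (Dv b (v j)) (hP a ha)
    rw [map_sum, map_zero] at h1
    simp only [Derivation.leibniz, Dv_gen, smul_eq_mul, Finset.sum_add_distrib] at h1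
    exact eq_neg_of_add_eq_zero_left h1
  refine ⟨ψ, hψp, fun y hy => ?_⟩
  apply triangular (fun j i => algebraMap (MvPolynomial (Fin d) (ZMod p)) (Fr p d)
    (∑ l, S l * MvPolynomial.C (v j (D.lg (co.k l) (ψ i))))) y
  · intro j
    have h1 : ∀ i, y i * algebraMap (MvPolynomial (Fin d) (ZMod p)) (Fr p d)
        (∑ l, S l * MvPolynomial.C (v j (D.lg (co.k l) (ψ i))))
        = - ∑ l, algebraMap (MvPolynomial (Fin d) (ZMod p)) (Fr p d) (Dv b (v j) (S l))
          * (y i * genF b (D.lg (co.k l) (ψ i))) := by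
      intro i
      rw [hder j (ψ i) (hψp i), map_neg, map_sum, mul_neg, Finset.mul_sum]
      congr 1
      apply Finset.sum_congr rfl
      intro l _
      rw [map_mul, genF_apply]
      ring
    simp only [h1]
    rw [Finset.sum_neg_distrib, Finset.sum_comm]
    rw [neg_eq_zero]
    apply Finset.sum_eq_zero
    intro l _
    rw [← Finset.mul_sum, hy (co.k l) (co.hk l), mul_zero]
  · intro j i hij
    show algebraMap (MvPolynomial (Fin d) (ZMod p)) (Fr p d) _ = 0
    rw [Finset.sum_eq_zero, map_zero]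
    intro l _
    have h1 : D.lg (co.k l) (ψ i) ∈ D.Z K (i.1 + 1) :=
      (zf4 K (i.1 + 1) (co.k l) (co.hk l) (ψ i) (hψ i)).2
    have h2 : D.lg (co.k l) (ψ i) ∈ D.Z K j.1 := hmono _ _ (by have : i.1 < j.1 := hij; omega) h1
    rw [hvZ j _ h2, map_zero, mul_zero]
  · intro j
    show algebraMap (MvPolynomial (Fin d) (ZMod p)) (Fr p d) _ ≠ 0
    rw [Ne, map_eq_zero_iff _ hinj]
    exact hL j

end H80.EA
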