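import Pool.Agent.H2.EA.Stm

/-! Crew EA, part SQ (helper80). -/

set_option autoImplicit false
set_option linter.all false

open Finset Module

namespace H80.EA

theorem alt_det_sq {K : Type} [Field K] : ∀ (n : ℕ) (J : Type) [Fintype J] [DecidableEq J]
    (S : Matrix J J K), Fintype.card J = n → (∀ i, S i i = 0) → (∀ i j, S j i = - S i j) →
    ∃ q : K, q ^ 2 = S.det := by
  intro n
  induction n using Nat.strong_induction_on with
  | _ n ih =>
    intro J _ _ S hn h0 h1
    by_cases hS : ∀ i j, S i j = 0
    · by_cases hJ : IsEmpty J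
      · exact ⟨1, by rw [Matrix.det_isEmpty, one_pow]⟩
      · rw [not_isEmpty_iff] at hJ
        have hS0 : S = 0 := by ext i j; exact hS i j
        refine ⟨0, ?_⟩
        haveI := hJ
        rw [hS0, Matrix.det_zero]
        norm_num
    · push Not at hS
      obtain ⟨i0, j0, ha⟩ := hS
      have hij : i0 ≠ j0 := by
        rintro rfl
        exact ha (h0 i0)
      obtain ⟨a, haa⟩ : ∃ a, a = S i0 j0 := ⟨_, rfl⟩
      rw [← haa] at ha
      let P : J → Prop := fun x => x = i0 ∨ x = j0
      haveI : DecidablePred P := fun x => inferInstanceAs (Decidable (x = i0 ∨ x = j0))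
      let f1 : Fin 2 → {x // P x} := ![⟨i0, Or.inl rfl⟩, ⟨j0, Or.inr rfl⟩]
      have hf1 : Function.Bijective f1 := by
        constructor
        · intro x y hxy
          fin_cases x <;> fin_cases y
          · rfl
          · exact absurd (congrArg Subtype.val hxy) hij
          · exact absurd (congrArg Subtype.val hxy).symm hij
          · rfl
        · rintro ⟨x, rfl | rfl⟩
          · exact ⟨0, rfl⟩
          · exact ⟨1, rfl⟩
      let e1 : Fin 2 ≃ {x // P x} := Equiv.ofBijective f1 hf1
      let e : Fin 2 ⊕ {x // ¬ P x} ≃ J :=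
        (Equiv.sumCongr e1 (Equiv.refl _)).trans (Equiv.sumCompl P)
      have he0 : e (Sum.inl 0) = i0 := rfl
      have he1 : e (Sum.inl 1) = j0 := rfl
      let B : Matrix (Fin 2) {x // ¬ P x} K := fun k x => S (e (Sum.inl k)) (e (Sum.inr x))
      let A : Matrix (Fin 2) (Fin 2) K := !![0, a; -a, 0]
      let A' : Matrix (Fin 2) (Fin 2) K := !![0, -a⁻¹; a⁻¹, 0]
      let M : Matrix {x // ¬ P x} {x // ¬ P x} K := fun x y =>
        S (e (Sum.inr x)) (e (Sum.inr y)) + a⁻¹ * (B 1 x * B 0 y - B 0 x * B 1 y)
      let D' : Matrix {x // ¬ P x} {x // ¬ P x} K :=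
        S.submatrix (fun x => e (Sum.inr x)) (fun y => e (Sum.inr y))
      have hAA : A * A' = 1 := by
        ext i j
        fin_cases i <;> fin_cases j <;> simp [A, A', Matrix.mul_apply, Fin.sum_univ_two, ha]
      haveI : Invertible A := invertibleOfRightInverse A A' hAA
      have hinv : ⅟A = A' := invOf_eq_right_inv hAA
      have hdec : S.submatrix e e = Matrix.fromBlocks A B (-B.transpose) D' := by
        ext x y
        rcases x with x | x <;> rcases y with y | y
        · fin_cases x <;> fin_cases y
          · show S i0 i0 = 0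
            exact h0 _
          · show S i0 j0 = a
            exact haa.symm
          · show S j0 i0 = -a
            rw [haa]
            exact h1 _ _
          · show S j0 j0 = 0
            exact h0 _
        · rfl
        · exact h1 (e (Sum.inl y)) (e (Sum.inr x))
        · rfl
      have hdet : S.det = A.det * M.det := by
        rw [← Matrix.det_submatrix_equiv_self e S, hdec, Matrix.det_fromBlocks₁₁, hinv]
        congr 2
        ext x y
        simp only [Matrix.sub_apply, Matrix.mul_apply, Fin.sum_univ_two, Matrix.neg_apply,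
          Matrix.transpose_apply, M, A', D', Matrix.submatrix_apply]
        simp
        ring
      have hcard : Fintype.card {x // ¬ P x} < n := by
        rw [← hn]
        exact Fintype.card_subtype_lt (x := i0) (by simp [P])
      obtain ⟨q, hq⟩ := ih _ hcard {x // ¬ P x} M rfl (by
        intro x
        simp only [M]
        rw [h0]
        ring) (by
        intro x y
        simp only [M]
        rw [h1 (e (Sum.inr x)) (e (Sum.inr y))]
        ring)
      refine ⟨a * q, ?_⟩
      rw [hdet, ← hq, Matrix.det_fin_two]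
      simp [A]
      ring

theorem isHomogeneous_det {R σ J : Type} [CommRing R] [Fintype J] [DecidableEq J]
    (S : Matrix J J (MvPolynomial σ R)) (h : ∀ i j, (S i j).IsHomogeneous 1) :
    S.det.IsHomogeneous (Fintype.card J) := by
  rw [Matrix.det_apply]
  apply MvPolynomial.IsHomogeneous.sum
  intro s _
  have h1 : (∏ i, S (s i) i).IsHomogeneous (∑ i : J, 1) :=
    MvPolynomial.IsHomogeneous.prod _ _ _ (fun i _ => h _ _)
  rw [Finset.sum_const, smul_eq_mul, mul_one, Finset.card_univ] at h1
  rcases Int.units_eq_one_or (Equiv.Perm.sign s) with hs | hs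
  · rw [hs, one_smul]; exact h1
  · rw [hs, Units.neg_smul, one_smul]; exact h1.neg

/-- `f(X t)` -/
noncomputable def scal (R σ : Type) [CommRing R] :
    MvPolynomial σ R →ₐ[R] Polynomial (MvPolynomial σ R) :=
  MvPolynomial.aeval (fun i => Polynomial.C (MvPolynomial.X i) * Polynomial.X)

theorem scal_monomial {R σ : Type} [CommRing R] (m : σ →₀ ℕ) (c : R) :
    scal R σ (MvPolynomial.monomial m c)
      = Polynomial.C (MvPolynomial.monomial m c) * Polynomial.X ^ m.degree := by
  rw [scal, MvPolynomial.aeval_monomial, MvPolynomial.monomial_eq, Finsupp.prod, Finsupp.prod,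
    map_mul, map_prod]
  simp only [mul_pow, Finset.prod_mul_distrib, Finset.prod_pow_eq_pow_sum, map_pow]
  rw [← mul_assoc]
  rfl

theorem scal_coeff {R σ : Type} [CommRing R] (f : MvPolynomial σ R) (n : ℕ) :
    (scal R σ f).coeff n = MvPolynomial.homogeneousComponent n f := by
  conv_lhs => rw [f.as_sum]
  rw [map_sum, Polynomial.finset_sum_coeff, MvPolynomial.homogeneousComponent_apply,
    Finset.sum_filter]
  apply Finset.sum_congr rfl
  intro m _
  rw [scal_monomial, Polynomial.coeff_C_mul, Polynomial.coeff_X_pow]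
  by_cases h : m.degree = n
  · rw [if_pos h, if_pos h.symm, mul_one]
  · rw [if_neg h, if_neg (Ne.symm h), mul_zero]

theorem sqrt_homog {R σ : Type} [CommRing R] [IsDomain R] {Q D : MvPolynomial σ R} {e : ℕ}
    (hQ : Q ^ 2 = D) (hD : D.IsHomogeneous (2 * e)) (hD0 : D ≠ 0) : Q.IsHomogeneous e := by
  have h1 : scal R σ D = Polynomial.C D * Polynomial.X ^ (2 * e) := by
    ext1 n
    rw [scal_coeff, Polynomial.coeff_C_mul, Polynomial.coeff_X_pow]
    by_cases h : n = 2 * e
    · subst h
      rw [if_pos rfl, mul_one]
      exact (MvPolynomial.homogeneousComponent_of_mem (m := 2 * e) hD).trans (if_pos rfl)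
    · rw [if_neg h, mul_zero]
      exact (MvPolynomial.homogeneousComponent_of_mem (m := n) hD).trans (if_neg h)
  have h2 : scal R σ Q ^ 2 = Polynomial.C D * Polynomial.X ^ (2 * e) := by
    rw [← map_pow, hQ, h1]
  have hP0 : scal R σ Q ≠ 0 := by
    intro h
    rw [h] at h2
    have : (0 : Polynomial (MvPolynomial σ R)) ^ 2 = 0 := by norm_num
    rw [this] at h2
    have h3 := congrArg (fun f => Polynomial.coeff f (2 * e)) h2
    simp at h3
    exact hD0 h3.symm
  have hdeg : (scal R σ Q).natDegree = e := by
    have h3 := congrArg Polynomial.natDegree h2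
    rw [Polynomial.natDegree_pow, Polynomial.natDegree_C_mul_X_pow _ _ hD0] at h3
    omega
  have htr : (scal R σ Q).natTrailingDegree = e := by
    have h3 := congrArg Polynomial.natTrailingDegree h2
    rw [sq, Polynomial.natTrailingDegree_mul hP0 hP0] at h3
    have h4 : (Polynomial.C D * Polynomial.X ^ (2 * e)).natTrailingDegree = 2 * e := by
      rw [Polynomial.C_mul_X_pow_eq_monomial]
      exact Polynomial.natTrailingDegree_monomial hD0
    omega
  intro m hm
  by_contra hne
  have hne' : m.degree ≠ e := by
    rw [Finsupp.degree_eq_weight_one]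
    exact hne
  have h5 : (scal R σ Q).coeff m.degree = 0 := by
    rcases lt_or_gt_of_ne hne' with h | h
    · exact Polynomial.coeff_eq_zero_of_lt_natTrailingDegree (by rw [htr]; exact h)
    · exact Polynomial.coeff_eq_zero_of_natDegree_lt (by rw [hdeg]; exact h)
  rw [scal_coeff] at h5
  have h6 := MvPolynomial.coeff_homogeneousComponent m.degree Q m
  rw [h5, if_pos rfl, MvPolynomial.coeff_zero] at h6
  exact hm h6.symm

theorem t_SQ : H2.EA.S_SQ := by
  intro p _ d e J _ _ S hcard h0 h1 hlin hdet
  let F := H2.EA.Fr p d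
  let φ := algebraMap (MvPolynomial (Fin d) (ZMod p)) F
  obtain ⟨q, hq⟩ := alt_det_sq (K := F) _ J (S.map φ) rfl
    (by intro i; rw [Matrix.map_apply, h0, map_zero])
    (by intro i j; rw [Matrix.map_apply, Matrix.map_apply, h1 i j, map_neg])
  have hq2 : q ^ 2 = φ S.det := by
    rw [hq]
    exact (RingHom.map_det φ S).symm
  obtain ⟨Q, hQ⟩ := IsIntegrallyClosed.exists_algebraMap_eq_of_isIntegral_pow
    (R := MvPolynomial (Fin d) (ZMod p)) (K := F) (x := q) (n := 2) (by norm_num)
    (by rw [hq2]; exact isIntegral_algebraMap)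
  have hQ2 : Q ^ 2 = S.det := by
    apply IsFractionRing.injective (MvPolynomial (Fin d) (ZMod p)) F
    rw [map_pow, hQ, hq2]
  refine ⟨Q, ?_, hQ2⟩
  have hhom := isHomogeneous_det S hlin
  rw [hcard] at hhom
  exact sqrt_homog hQ2 hhom hdet

end H80.EA
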